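import Mathlib

/-!
Problem MP_95a664_lc: a Tukey-minimal poset for `I`-cohesiveness does not exist in general.

For an uncountable set `X` let `I` be the ideal of all `A ⊆ ℕ × X` such that for some `n` only
countably many elements of `A` have first coordinate at least `n`.  Both `ℕ` and the directed set of
countable subsets of `ℕ × X` are `I`-cohesive.  A poset below both in the Tukey order has a
greatest element, hence is below the one-point poset, which is not `I`-cohesive.
-/

namespace Pool.Agent.Results.MP_95a664_lc.NoLeastPoset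

universe u v

/-- `B` is cofinal in the poset `Q`. -/
def Cofinal {Q : Type u} [PartialOrder Q] (B : Set Q) : Prop :=
  ∀ q : Q, ∃ b ∈ B, q ≤ b

/-- `P ≤_T Q`: some map from `Q` to `P` sends every cofinal subset of `Q` onto a cofinal subset
of `P`. -/
def TukeyLE (P : Type u) (Q : Type v) [PartialOrder P] [PartialOrder Q] : Prop :=
  ∃ f : Q → P, ∀ B : Set Q, Cofinal B → Cofinal (f '' B)

/-- A family of sets is an ideal: it contains the empty set and is closed under subsets and
unions of two members. -/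
structure IsIdealOfSets {α : Type u} (I : Set (Set α)) : Prop where
  empty_mem : ∅ ∈ I
  subset_mem : ∀ A B : Set α, A ⊆ B → B ∈ I → A ∈ I
  union_mem : ∀ A B : Set α, A ∈ I → B ∈ I → A ∪ B ∈ I

/-- `Q` is `I`-cohesive: there is a family of elements of `Q` indexed by the union of `I` such that
every subset `S` of that union which is not in `I` indexes a set unbounded in `Q`. -/
def Cohesive {α : Type u} (I : Set (Set α)) (Q : Type v) [PartialOrder Q] : Prop :=
  ∃ q : ↥(⋃₀ I) → Q, ∀ S : Set α, S ⊆ ⋃₀ I → S ∉ I →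
    ¬ ∃ b : Q, ∀ i : ↥(⋃₀ I), (i : α) ∈ S → q i ≤ b

/-- The ideal of all `A ⊆ ℕ × X` such that, for some `n`, only countably many members of `A` have
first coordinate at least `n`. -/
def fanIdeal (X : Type u) : Set (Set (ℕ × X)) :=
  {A | ∃ n : ℕ, {a ∈ A | n ≤ a.1}.Countable}

theorem fanIdeal_isIdeal (X : Type u) : IsIdealOfSets (fanIdeal X) where
  empty_mem := ⟨0, by simp⟩
  subset_mem := by
    rintro A B hAB ⟨n, hn⟩
    refine ⟨n, hn.mono ?_⟩
    rintro a ⟨ha, hle⟩
    exact ⟨hAB ha, hle⟩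
  union_mem := by
    rintro A B ⟨n, hn⟩ ⟨m, hm⟩
    refine ⟨max n m, (hn.union hm).mono ?_⟩
    rintro a ⟨ha | ha, hle⟩
    · exact Or.inl ⟨ha, le_trans (le_max_left _ _) hle⟩
    · exact Or.inr ⟨ha, le_trans (le_max_right _ _) hle⟩

theorem sUnion_fanIdeal (X : Type u) : ⋃₀ fanIdeal X = Set.univ := by
  ext a
  simp only [Set.mem_sUnion, Set.mem_univ, iff_true]
  exact ⟨{a}, ⟨0, (Set.countable_singleton a).mono fun b hb => hb.1⟩, rfl⟩

/-- `ℕ` is cohesive for the fan ideal. -/
theorem cohesive_nat (X : Type u) : Cohesive (fanIdeal X) (ULift.{u} ℕ) := by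
  refine ⟨fun i => ULift.up (i : ℕ × X).1, fun S _ hSI => ?_⟩
  rintro ⟨b, hb⟩
  apply hSI
  refine ⟨b.down + 1, ?_⟩
  refine Set.Countable.mono ?_ Set.countable_empty
  rintro a ⟨haS, hle⟩
  have := hb ⟨a, by rw [sUnion_fanIdeal]; trivial⟩ haS
  have h2 : a.1 ≤ b.down := this
  exfalso
  omega

/-- The directed set of countable subsets of `ℕ × X`. -/
abbrev CtblSets (X : Type u) : Type u := {A : Set (ℕ × X) // A.Countable}

theorem cohesive_ctbl (X : Type u) : Cohesive (fanIdeal X) (CtblSets X) := by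
  refine ⟨fun i => ⟨{(i : ℕ × X)}, Set.countable_singleton _⟩, fun S _ hSI => ?_⟩
  rintro ⟨b, hb⟩
  apply hSI
  refine ⟨0, b.2.mono ?_⟩
  rintro a ⟨haS, -⟩
  have := hb ⟨a, by rw [sUnion_fanIdeal]; trivial⟩ haS
  exact this rfl

theorem directed_ctbl (X : Type u) : IsDirected (CtblSets X) (· ≤ ·) :=
  ⟨fun A B => ⟨⟨A.1 ∪ B.1, A.2.union B.2⟩, Set.subset_union_left, Set.subset_union_right⟩⟩

/-- A map witnessing `P ≤_T Q` has, for each `p`, a threshold in `Q` beyond which all values are
above `p`. -/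
theorem threshold {P : Type u} {Q : Type v} [PartialOrder P] [PartialOrder Q]
    {f : Q → P} (hf : ∀ B : Set Q, Cofinal B → Cofinal (f '' B)) (p : P) :
    ∃ q : Q, ∀ r : Q, q ≤ r → p ≤ f r := by
  by_contra hcon
  push Not at hcon
  have hB : Cofinal {r : Q | ¬ p ≤ f r} := by
    intro q
    obtain ⟨r, hqr, hr⟩ := hcon q
    exact ⟨r, hr, hqr⟩
  obtain ⟨b, ⟨r, hr, rfl⟩, hpb⟩ := hf _ hB p
  exact hr hpb

/-- For every uncountable set `X`, the fan ideal on `ℕ × X` has no poset `P` such that the directed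
sets `Q` with `P ≤_T Q` are exactly the cohesive ones. -/
theorem result (X : Type v) [Uncountable X] :
    IsIdealOfSets (fanIdeal X) ∧ ⋃₀ fanIdeal X = Set.univ ∧
    ∀ (P : Type u) (_ : PartialOrder P),
      ¬ ∀ (Q : Type v) (_ : PartialOrder Q), IsDirected Q (· ≤ ·) →
          (TukeyLE P Q ↔ Cohesive (fanIdeal X) Q) := by
  refine ⟨fanIdeal_isIdeal X, sUnion_fanIdeal X, ?_⟩
  intro P _ hP
  -- `P` is Tukey below `ℕ` and below the countable sets
  obtain ⟨f, hf⟩ := (hP (ULift.{v} ℕ) inferInstance inferInstance).2 (cohesive_nat X)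
  obtain ⟨g, hg⟩ := (hP (CtblSets X) inferInstance (directed_ctbl X)).2 (cohesive_ctbl X)
  -- the range of `f` is cofinal
  have hcof : Cofinal (f '' Set.univ) := hf _ fun q => ⟨q, trivial, le_rfl⟩
  -- an upper bound for the range of `f`
  choose t ht using fun n : ℕ => threshold hg (f (ULift.up n))
  let U : CtblSets X := ⟨⋃ n, (t n).1, Set.countable_iUnion fun n => (t n).2⟩
  have htop : ∀ p : P, p ≤ g U := by
    intro p
    obtain ⟨b, ⟨n, -, rfl⟩, hpb⟩ := hcof p
    refine hpb.trans ?_
    have := ht n.down U (Set.subset_iUnion (fun n => (t n).1) n.down)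
    exact this
  -- hence `P` is Tukey below the one-point poset
  have h1 : TukeyLE P PUnit.{v + 1} := by
    refine ⟨fun _ => g U, fun B hB p => ?_⟩
    obtain ⟨b, hb, -⟩ := hB PUnit.unit
    exact ⟨g U, ⟨b, hb, rfl⟩, htop p⟩
  obtain ⟨q, hq⟩ := (hP PUnit.{v + 1} inferInstance inferInstance).1 h1
  refine hq Set.univ (by rw [sUnion_fanIdeal]) ?_ ⟨PUnit.unit, fun _ _ => le_rfl⟩
  rintro ⟨n, hn⟩
  have hinj : Function.Injective (fun x : X => ((n, x) : ℕ × X)) := fun x y h => by
    simpa using h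
  have hsub : Set.range (fun x : X => ((n, x) : ℕ × X)) ⊆ {a ∈ (Set.univ : Set (ℕ × X)) | n ≤ a.1} := by
    rintro _ ⟨x, rfl⟩
    exact ⟨trivial, le_rfl⟩
  have hc := hn.mono hsub
  have : Countable X := by
    have h3 : (Set.univ : Set X).Countable := by
      rw [← Set.image_univ] at hc
      exact Set.countable_of_injective_of_countable_image hinj.injOn hc
    exact Set.countable_univ_iff.1 h3
  exact not_countable (α := X) this

end Pool.Agent.Results.MP_95a664_lc.NoLeastPoset
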